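import Pool.Agent.V69.SS.Par

set_option autoImplicit false

/-!
# The Tate conjecture in the middle codimension when the defect is at most one

In the intended use `k` is an algebraic closure of the field with `p` elements, the varieties are the smooth
projective ones, `W` is the `ℓ`-adic cohomology and `Φ` are the Frobenius endomorphisms of models over finite
fields (`FrobSystem`). For a surface `X` the codimension `j = 1` gives the Tate conjecture for divisors on `X`.

Let `X` have dimension `2 j`, let `r` be the dimension of the span of the classes of the cycles of codimension `j`
in `H^{2j}(X)` (for a surface the Picard number, if homological and numerical equivalence agree, as they do for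
divisors) and `T_s` the space of the Tate classes over the field with `q = card Φ X s` elements. The Tate conjecture
for `X` in codimension `j`, over all finite fields, holds if and only if

* `r` has the parity of the Betti number `b_{2j}(X)`, and
* `dim T_s ≤ r + 1` for all `s`.

So the Tate conjecture for the divisors on a surface `X` is proved as soon as there is at most one independent Tate
class modulo the divisor classes over each finite field, and `ρ ≡ b_2` modulo `2`. The necessity of the parity is a
well known consequence of the Tate conjecture; the semisimplicity of Frobenius is not assumed here.

Proof. `tr (F x · y) - tr (x · F y)` is an alternating form on `H^{2j}(X)`, and its radical is the kernel of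
`F ^ 2 - q ^ (2 j)`, the space of the Tate classes over the quadratic extension. Hence the dimension of the space of
all the Tate classes has the parity of `b_{2j}`.
-/

open CategoryTheory AlgebraicGeometry

universe u v

namespace Pool.Agent.Results.MP_8ac872_ag.CodimensionOne

open Pool.Agent.H914 Pool.Agent.V69.SS
open Pool.Agent.W534 (FrobSystem TateIn)

/-- **The Tate conjecture in the middle codimension, up to one class.** Let `X` have dimension `2 j` (a surface,
for divisors). All the Tate classes of degree `2 j` are combinations of classes of cycles if and only if the
dimension of the span of the classes of the cycles has the parity of the Betti number `b_{2j}` and over every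
finite field the dimension of the space of the Tate classes is at most one more than this dimension. -/
theorem result {k : Type u} [Field k] {𝒱 : VarClass k} {ops : CycleOps 𝒱}
    {W : WeilCohomology.{u, v} ops} {p : ℕ} (Φ : FrobSystem W p) (X : 𝒱.Obj) (j : ℕ)
    (hdim : X.dim = 2 * j) :
    TateIn Φ X j ↔
      dimOf (spanCycles W X j) ≡ bettiNumber W X (2 * j) [MOD 2] ∧ TateDefectLEOne Φ X j :=
  crit Φ hdim

end Pool.Agent.Results.MP_8ac872_ag.CodimensionOne
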