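import Pool.Agent.V202T.FrobMain

/-!
# The Tate conjecture for divisors holds if the multiplicity of `q` exceeds the rank of the space of
divisor classes by a bounded amount only

Fix a finite field with `q` elements, a prime `ℓ` different from its characteristic and a dimension
`n`. For a variety `Y` of dimension `n` let `V_div(Y)` be the space spanned by the classes of the
divisors in `H²(Ȳ, ℚ_ℓ(1))`, `H²(Ȳ, ℚ_ℓ(1))^G` the space of the invariant classes and `m(Y)` the
dimension of the generalised eigenspace of the Frobenius operator on `H²` for the eigenvalue `q`, that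
is, the multiplicity of `q` as a root of `Q_2(Y, T)`.

1. `V_div(Y) = H²(Ȳ, ℚ_ℓ(1))^G` and `dim V_div(Y) = m(Y)` for all `Y` of dimension `n` if and only if
  there is `D` such that `m(Y) ≤ dim V_div(Y) + D` for all `Y` of dimension `n`.
2. `V_div(Y) = H²(Ȳ, ℚ_ℓ(1))^G` for all `Y` of dimension `n` if and only if there is `D` such that
  `dim H²(Ȳ, ℚ_ℓ(1))^G ≤ dim V_div(Y) + D` for all `Y` of dimension `n`.

The equivalences are stated in terms of formal properties of Chow groups, of a Weil cohomology and of
the Frobenius operators on it (`Frobenius`); `HasPower` are varieties of dimension `n` with many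
morphisms to a given one. The proof applies the theorem `MP_89bcae_ag.BoundedDefects` of our team to
the generalised eigenspaces and to the eigenspaces of the Frobenius operators.
-/

open CategoryTheory AlgebraicGeometry

universe u v w

namespace Pool.Agent.Results.MP_8ac872_ag.MultiplicityBounded

open Pool.Agent.H914 Pool.Agent.H914.VarClass Pool.Agent.H914.VarClass.Obj Pool.Agent.W492.BB
  Pool.Agent.TH133 Pool.Agent.V1157.BD Pool.Agent.V202T

theorem result {k : Type u} [Field k] {𝒱 : VarClass k} {C : TheoryData.{u, v, 0} 𝒱 ℚ}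
    [IsChowProj C] {K : Type w} [Field K] {H : WeilTheoryData.{u, v, w} C K} [IsWeilProj H]
    [∀ X : 𝒱.Obj, Module.Finite K (H.A X)] {q : K} (Φ : Frobenius H q) (hq : q ≠ 0) (n : ℕ)
    (hP : ∀ (S : 𝒱.Obj) (N : ℕ), S.dim = n → HasPower C n N S) :
    ((∀ Y : 𝒱.Obj, Y.dim = n → Φ.Spanned Y ∧ divRank H Y = Φ.mult Y) ↔
      ∃ D, ∀ Y : 𝒱.Obj, Y.dim = n → Φ.mult Y ≤ divRank H Y + D) ∧
    ((∀ Y : 𝒱.Obj, Y.dim = n → Φ.Spanned Y) ↔
      ∃ D, ∀ Y : 𝒱.Obj, Y.dim = n → Φ.invRank Y ≤ divRank H Y + D) :=
  ⟨mult_iff Φ hq n hP, inv_iff Φ hq n hP⟩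

end Pool.Agent.Results.MP_8ac872_ag.MultiplicityBounded
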