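import Pool.Agent.V1143.KC.Congr

/-!
# The Tate conjecture for all surfaces congruent to a given elliptic surface

Let `k` be a finite field with `q` elements, of characteristic at least `5`, `C` a curve over `k`, `K = k(C)` and
`X → C` an elliptic surface with a section and the generic fibre `E : y² = x³ + a x + b`. For a finite extension
`M` of `K`, the function field of a curve `C'` over `k'`, let `X_M` be the elliptic surface over `k'` which is
birational to the fibre product of `X` and `C'` over `C`. By the formula of Shioda and Tate and the results of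
Tate and Milne, the statement of the problem for `X_M` (for every prime: the divisor classes span the
invariants, and their dimension is the multiplicity of the root `q'` of `Q_2`) says that the rank of `E(M)` is the
order of vanishing of `L(T, E/M)` at `1 / q'`; `rank ≤ order` is known.

Let `X₀` be one elliptic surface over `C` whose `L`-function does not vanish modulo `ℓ` at `1 / q`, for a prime `ℓ`
not dividing `q`. The theorem: the numbers of points on the fibres of `X₀` decide for which surfaces `X_M`, with
`X` congruent to `X₀` modulo `ℓ` and `M` any Galois extension of `K` of degree a power of `ℓ`, the central value is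
not divisible by `ℓ`; for all of them the statement of the problem is true.
-/

set_option autoImplicit false

open Polynomial FF Module Pool.Agent.W343.BSD Pool.Agent.W313.Gr Pool.Agent.V308.KD

namespace Pool.Agent.Results.MP_8ac872_ag.OneSurfaceDecides

/-- The Euler factors of `y² = x³ + a x + b` and `y² = x³ + a₀ x + b₀` are congruent modulo `ℓ` at all places
which are not in `B`; and at the places `v` in `B` the Euler factor of the first curve has at least the
multiplicity of the zero `1 / q` modulo `ℓ` which the one of the second curve has. -/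
structure Congruent {k K : Type} [Field k] [Field K] [Algebra k K] (ℓ : ℕ) [Fact ℓ.Prime]
    (B : Finset (Place k K)) (a b a₀ b₀ : K) : Prop where
  outside : ∀ v : Place k K, v ∉ B → (S.locFactor v a b).map (Int.castRingHom (ZMod ℓ)) =
    (S.locFactor v a₀ b₀).map (Int.castRingHom (ZMod ℓ))
  inside : ∀ v ∈ B, mult ℓ (Nat.card k) (S.locFactor v a₀ b₀) ≤
    mult ℓ (Nat.card k) (S.locFactor v a b)

/-- `M` is the function field of a curve over the finite field `k'`, and a Galois extension of `K` of degree
a power of `ℓ`; if `ℓ` is `2` or `3`, it is not ramified at the places of additive reduction of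
`y² = x³ + a x + b`; and `Q` is the `L`-function of this curve over `M` as a polynomial in `T`. -/
structure IsCovering (k K k' M : Type) [Field k] [Field K] [Algebra k K] [Field k'] [Field M]
    [Algebra k' M] [Algebra k k'] [Algebra k M] [Algebra K M] (ℓ : ℕ) (a b : K) (Q : ℤ[X]) :
    Prop where
  curve : IsCurveField k' M
  finite : FiniteDimensional K M
  galois : IsGalois K M
  degree : ∃ s : ℕ, finrank K M = ℓ ^ s
  additive : ℓ ∣ 6 → ∀ v : Place k K, IsAdditive v a b → ramIndex M v = 1
  lfun : S.Lfun k' (algebraMap K M a) (algebraMap K M b) = (Q : PowerSeries ℤ)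

/-- The Tate conjecture for `X_M`, with trivial order and rank: `L(T, E/M)` does not vanish at `1 / q'`, and,
as the rank is at most the order (Tate), `E(M)` has rank `0`. -/
def TateRankZero (k' : Type) {M : Type} [Field k'] [Field M] [Algebra k' M] (a b : M) : Prop :=
  HasOrder k' a b 0 ∧ ((∀ r : ℕ, HasOrder k' a b r → rank a b ≤ r) → rank a b = 0)

/-- The place `v` is ramified in some extension `L` of `K` of the kind considered such that the `L`-function of
`y² = x³ + a x + b` over `L` does not vanish modulo `ℓ` at the central point. -/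
def Allowed {k K : Type} [Field k] [Field K] [Algebra k K] (ℓ : ℕ) [Fact ℓ.Prime] (a b : K)
    (v : Place k K) : Prop :=
  ∃ (k' L : Type) (_ : Field k') (_ : Finite k') (_ : Field L) (_ : Algebra k' L) (_ : Algebra k k')
    (_ : Algebra k L) (_ : Algebra K L) (_ : IsScalarTower k K L) (_ : IsScalarTower k k' L)
    (Q : ℤ[X]), IsCovering k K k' L ℓ a b Q ∧ mult ℓ (Nat.card k') Q = 0 ∧ ramIndex L v ≠ 1

/-- Let `E₀ : y² = x³ + a₀ x + b₀`, with the `L`-function `P₀` over `K`, not zero modulo `ℓ` at `1 / q`.

(1) `ℓ` does not divide the number of nonsingular points of the reduction of `E₀` at any place which is ramified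
in an extension `L` of `K` as above such that the `L`-function of `E₀` over `L` is not zero modulo `ℓ` at the
central point.

(2) Let `E : y² = x³ + a x + b` be any elliptic curve which is congruent to `E₀` modulo `ℓ`, with any exceptional
set `B`, and `P` its `L`-function over `K`. Then `P` is not zero modulo `ℓ` at `1 / q`, and at all places
`v` the number of nonsingular points is divisible by `ℓ` for `E` if and only if it is for `E₀`.

(3) For every Galois extension `M` of `K` of degree a power of `ℓ`, with any ramification and any field of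
constants, the `L`-function of `E` over `M` is not zero modulo `ℓ` at the central point if and only if `ℓ` does not
divide the number of nonsingular points of the reduction of `E₀` at the places which are ramified in `M`; then
the Tate conjecture is true for `X_M`, and `E(M)` has rank `0`.

(4) This is the case if every place which is ramified in `M` is ramified in an extension as in (1). -/
theorem result (k K : Type) [Field k] [Finite k] [Field K] [Algebra k K] (h6 : (6 : k) ≠ 0)
    (hK : IsCurveField k K) (ℓ : ℕ) [Fact ℓ.Prime] (hℓ : (ℓ : k) ≠ 0) (a₀ b₀ : K)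
    (hE₀ : 4 * a₀ ^ 3 + 27 * b₀ ^ 2 ≠ 0) (P₀ : ℤ[X])
    (hP₀ : S.Lfun k a₀ b₀ = (P₀ : PowerSeries ℤ)) (h₀ : mult ℓ (Nat.card k) P₀ = 0) :
    -- (1)
    (∀ v : Place k K, Allowed ℓ a₀ b₀ v → ¬ (ℓ : ℤ) ∣ numPoints v a₀ b₀) ∧
    ∀ a b : K, 4 * a ^ 3 + 27 * b ^ 2 ≠ 0 → ∀ P : ℤ[X], S.Lfun k a b = (P : PowerSeries ℤ) →
      ∀ B : Finset (Place k K), Congruent ℓ B a b a₀ b₀ →
      -- (2)
      (mult ℓ (Nat.card k) P = 0 ∧
        ∀ v : Place k K, (ℓ : ℤ) ∣ numPoints v a b ↔ (ℓ : ℤ) ∣ numPoints v a₀ b₀) ∧
      ∀ (k' M : Type) [Field k'] [Finite k'] [Field M] [Algebra k' M] [Algebra k k'] [Algebra k M]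
        [Algebra K M] [IsScalarTower k K M] [IsScalarTower k k' M] (Q : ℤ[X]),
        IsCovering k K k' M ℓ a b Q →
        -- (3)
        (mult ℓ (Nat.card k') Q = 0 ↔
          ∀ v : Place k K, ramIndex M v ≠ 1 → ¬ (ℓ : ℤ) ∣ numPoints v a₀ b₀) ∧
        (mult ℓ (Nat.card k') Q = 0 → TateRankZero k' (algebraMap K M a) (algebraMap K M b)) ∧
        -- (4)
        ((∀ v : Place k K, ramIndex M v ≠ 1 → Allowed ℓ a₀ b₀ v) →
          mult ℓ (Nat.card k') Q = 0 ∧
            TateRankZero k' (algebraMap K M a) (algebraMap K M b)) := by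
  classical
  have i1 : FF.IsFF k K := ⟨hK.essFiniteType, hK.trdeg_eq_one⟩
  have hone : ∀ v : Place k K, Allowed ℓ a₀ b₀ v → ¬ (ℓ : ℤ) ∣ numPoints v a₀ b₀ := by
    rintro v ⟨k', L, _, _, _, _, _, _, _, _, _, Q, hL, hQ, hv⟩
    obtain ⟨s, hs⟩ := hL.degree
    have j1 := hL.finite
    have j2 := hL.galois
    obtain ⟨c1, c2, c3, c4, c5, c6⟩ := kida_full k K k' L h6 hK hL.curve ℓ s hℓ hs a₀ b₀ hE₀
      hL.additive P₀ Q hP₀ hL.lfun
    exact (c4.1 hQ).2 v hv
  refine ⟨hone, ?_⟩
  intro a b hE P hP B hB
  have hsum := Pool.Agent.V1143.KC.congr_mult hE hE₀ B hB.outside hP hP₀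
  rw [h₀, Nat.zero_add] at hsum
  have hle : ∑ v ∈ B, mult ℓ (Nat.card k) (S.locFactor v a₀ b₀) ≤
      ∑ v ∈ B, mult ℓ (Nat.card k) (S.locFactor v a b) := Finset.sum_le_sum hB.inside
  have hP0 : mult ℓ (Nat.card k) P = 0 := by omega
  have heq : ∑ v ∈ B, mult ℓ (Nat.card k) (S.locFactor v a₀ b₀) =
      ∑ v ∈ B, mult ℓ (Nat.card k) (S.locFactor v a b) := by omega
  have hloc : ∀ v : Place k K, mult ℓ (Nat.card k) (S.locFactor v a b) =
      mult ℓ (Nat.card k) (S.locFactor v a₀ b₀) := by
    intro v
    by_cases hv : v ∈ B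
    · exact ((Finset.sum_eq_sum_iff_of_le hB.inside).1 heq v hv).symm
    · unfold mult
      rw [hB.outside v hv]
  have hnum : ∀ v : Place k K, (ℓ : ℤ) ∣ numPoints v a b ↔ (ℓ : ℤ) ∣ numPoints v a₀ b₀ := by
    intro v
    have h1 := mult_loc hℓ hE v
    have h2 := mult_loc hℓ hE₀ v
    rw [hloc v] at h1
    rw [← not_iff_not, ← h1, ← h2]
  refine ⟨⟨hP0, hnum⟩, ?_⟩
  intro k' M _ _ _ _ _ _ _ _ _ Q hM
  obtain ⟨s, hs⟩ := hM.degree
  have j1 := hM.finite
  have j2 := hM.galois
  obtain ⟨c1, c2, c3, c4, c5, c6⟩ := kida_full k K k' M h6 hK hM.curve ℓ s hℓ hs a b hE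
    hM.additive P Q hP hM.lfun
  have hiff : mult ℓ (Nat.card k') Q = 0 ↔
      ∀ v : Place k K, ramIndex M v ≠ 1 → ¬ (ℓ : ℤ) ∣ numPoints v a₀ b₀ := by
    rw [c4]
    constructor
    · rintro ⟨-, h⟩ v hv h'
      exact h v hv ((hnum v).2 h')
    · intro h
      exact ⟨hP0, fun v hv h' => h v hv ((hnum v).1 h')⟩
  have htate : mult ℓ (Nat.card k') Q = 0 →
      TateRankZero k' (algebraMap K M a) (algebraMap K M b) := by
    intro h
    obtain ⟨h1, h2⟩ := c4.1 h
    exact c6 h1 h2
  refine ⟨hiff, htate, fun h => ?_⟩
  have h1 := hiff.2 fun v hv => hone v (h v hv)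
  exact ⟨h1, htate h1⟩

end Pool.Agent.Results.MP_8ac872_ag.OneSurfaceDecides
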